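import Pool.Agent.Work.MP_b2b647_co.SemCheck
import Pool.Agent.Work.MP_b2b647_co.Data.Core0
import Pool.Agent.Work.MP_b2b647_co.Data.Core1
import Pool.Agent.Work.MP_b2b647_co.Data.Core2
import Pool.Agent.Work.MP_b2b647_co.Data.Core3
import Pool.Agent.Work.MP_b2b647_co.Data.Core4
import Pool.Agent.Work.MP_b2b647_co.Data.Core5
import Pool.Agent.Work.MP_b2b647_co.Data.Core6
import Pool.Agent.Work.MP_b2b647_co.Data.Core7
import Pool.Agent.Work.MP_b2b647_co.Data.Core8
import Pool.Agent.Work.MP_b2b647_co.Data.Core9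
import Pool.Agent.Work.MP_b2b647_co.Data.Core10
import Pool.Agent.Work.MP_b2b647_co.Data.Core11
import Pool.Agent.Work.MP_b2b647_co.Data.Core12
import Pool.Agent.Work.MP_b2b647_co.Data.Core13
import Pool.Agent.Work.MP_b2b647_co.Data.Core14
import Pool.Agent.Work.MP_b2b647_co.Data.Core15
import Pool.Agent.Work.MP_b2b647_co.Data.Core16
import Pool.Agent.Work.MP_b2b647_co.Data.Core17
import Pool.Agent.Work.MP_b2b647_co.Data.Core18
import Pool.Agent.Work.MP_b2b647_co.Data.Core19
import Pool.Agent.Work.MP_b2b647_co.Data.Core20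
import Pool.Agent.Work.MP_b2b647_co.Data.Hint0
import Pool.Agent.Work.MP_b2b647_co.Data.Hint1
import Pool.Agent.Work.MP_b2b647_co.Data.Hint2
import Pool.Agent.Work.MP_b2b647_co.Data.Hint3
import Pool.Agent.Work.MP_b2b647_co.Data.Hint4
import Pool.Agent.Work.MP_b2b647_co.Data.Hint5
import Pool.Agent.Work.MP_b2b647_co.Data.Hint6
import Pool.Agent.Work.MP_b2b647_co.Data.Hint7
import Pool.Agent.Work.MP_b2b647_co.Data.Hint8
import Pool.Agent.Work.MP_b2b647_co.Data.Hint9
import Pool.Agent.Work.MP_b2b647_co.Data.Hint10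
import Pool.Agent.Work.MP_b2b647_co.Data.Hint11
import Pool.Agent.Work.MP_b2b647_co.Data.Hint12
import Pool.Agent.Work.MP_b2b647_co.Data.Hint13
import Pool.Agent.Work.MP_b2b647_co.Data.Hint14
import Pool.Agent.Work.MP_b2b647_co.Data.Hint15
import Pool.Agent.Work.MP_b2b647_co.Data.Hint16
import Pool.Agent.Work.MP_b2b647_co.Data.Hint17
import Pool.Agent.Work.MP_b2b647_co.Data.Hint18
import Pool.Agent.Work.MP_b2b647_co.Data.Hint19
import Pool.Agent.Work.MP_b2b647_co.Data.Hint20
import Pool.Agent.Work.MP_b2b647_co.Data.Hint21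
import Pool.Agent.Work.MP_b2b647_co.Data.Hint22
import Pool.Agent.Work.MP_b2b647_co.Data.Hint23
import Pool.Agent.Work.MP_b2b647_co.Data.Hint24
import Pool.Agent.Work.MP_b2b647_co.Data.Hint25
import Pool.Agent.Work.MP_b2b647_co.Data.Hint26
import Pool.Agent.Work.MP_b2b647_co.Data.Hint27
import Pool.Agent.Work.MP_b2b647_co.Data.Hint28
import Pool.Agent.Work.MP_b2b647_co.Data.Hint29
import Pool.Agent.Work.MP_b2b647_co.Data.Hint30
import Pool.Agent.Work.MP_b2b647_co.Data.Hint31
import Pool.Agent.Work.MP_b2b647_co.Data.Hint32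
import Pool.Agent.Work.MP_b2b647_co.Data.Hint33
import Pool.Agent.Work.MP_b2b647_co.Data.Hint34
import Pool.Agent.Work.MP_b2b647_co.Data.Hint35
import Pool.Agent.Work.MP_b2b647_co.Data.Hint36

namespace Pool.Agent.Work.MP_b2b647_co.Check

theorem tb_last : tb.get 52419 = 0 := by decide +kernel

/-- The finite system has no solution. -/
theorem refute {R : ℕ → ℕ → Prop} (S : Sys vt R) : False := by
  have h0 : ∀ i, i < 0 → Holds (Asg vi R) (tb.get i) := fun i hi => absurd hi (Nat.not_lt_zero i)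
  have h1 : ∀ i, i < 1000 → Holds (Asg vi R) (tb.get i) := fun i hi =>
    chkList_spec S near_ok small_ok ws0 0 h0 core_ok0 i (by rw [ws_len0]; omega)
  have h2 : ∀ i, i < 2000 → Holds (Asg vi R) (tb.get i) := fun i hi =>
    chkList_spec S near_ok small_ok ws1 1000 h1 core_ok1 i (by rw [ws_len1]; omega)
  have h3 : ∀ i, i < 3000 → Holds (Asg vi R) (tb.get i) := fun i hi =>
    chkList_spec S near_ok small_ok ws2 2000 h2 core_ok2 i (by rw [ws_len2]; omega)
  have h4 : ∀ i, i < 4000 → Holds (Asg vi R) (tb.get i) := fun i hi =>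
    chkList_spec S near_ok small_ok ws3 3000 h3 core_ok3 i (by rw [ws_len3]; omega)
  have h5 : ∀ i, i < 5000 → Holds (Asg vi R) (tb.get i) := fun i hi =>
    chkList_spec S near_ok small_ok ws4 4000 h4 core_ok4 i (by rw [ws_len4]; omega)
  have h6 : ∀ i, i < 6000 → Holds (Asg vi R) (tb.get i) := fun i hi =>
    chkList_spec S near_ok small_ok ws5 5000 h5 core_ok5 i (by rw [ws_len5]; omega)
  have h7 : ∀ i, i < 7000 → Holds (Asg vi R) (tb.get i) := fun i hi =>
    chkList_spec S near_ok small_ok ws6 6000 h6 core_ok6 i (by rw [ws_len6]; omega)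
  have h8 : ∀ i, i < 8000 → Holds (Asg vi R) (tb.get i) := fun i hi =>
    chkList_spec S near_ok small_ok ws7 7000 h7 core_ok7 i (by rw [ws_len7]; omega)
  have h9 : ∀ i, i < 9000 → Holds (Asg vi R) (tb.get i) := fun i hi =>
    chkList_spec S near_ok small_ok ws8 8000 h8 core_ok8 i (by rw [ws_len8]; omega)
  have h10 : ∀ i, i < 10000 → Holds (Asg vi R) (tb.get i) := fun i hi =>
    chkList_spec S near_ok small_ok ws9 9000 h9 core_ok9 i (by rw [ws_len9]; omega)
  have h11 : ∀ i, i < 11000 → Holds (Asg vi R) (tb.get i) := fun i hi =>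
    chkList_spec S near_ok small_ok ws10 10000 h10 core_ok10 i (by rw [ws_len10]; omega)
  have h12 : ∀ i, i < 12000 → Holds (Asg vi R) (tb.get i) := fun i hi =>
    chkList_spec S near_ok small_ok ws11 11000 h11 core_ok11 i (by rw [ws_len11]; omega)
  have h13 : ∀ i, i < 13000 → Holds (Asg vi R) (tb.get i) := fun i hi =>
    chkList_spec S near_ok small_ok ws12 12000 h12 core_ok12 i (by rw [ws_len12]; omega)
  have h14 : ∀ i, i < 14000 → Holds (Asg vi R) (tb.get i) := fun i hi =>
    chkList_spec S near_ok small_ok ws13 13000 h13 core_ok13 i (by rw [ws_len13]; omega)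
  have h15 : ∀ i, i < 15000 → Holds (Asg vi R) (tb.get i) := fun i hi =>
    chkList_spec S near_ok small_ok ws14 14000 h14 core_ok14 i (by rw [ws_len14]; omega)
  have h16 : ∀ i, i < 16000 → Holds (Asg vi R) (tb.get i) := fun i hi =>
    chkList_spec S near_ok small_ok ws15 15000 h15 core_ok15 i (by rw [ws_len15]; omega)
  have h17 : ∀ i, i < 17000 → Holds (Asg vi R) (tb.get i) := fun i hi =>
    chkList_spec S near_ok small_ok ws16 16000 h16 core_ok16 i (by rw [ws_len16]; omega)
  have h18 : ∀ i, i < 18000 → Holds (Asg vi R) (tb.get i) := fun i hi =>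
    chkList_spec S near_ok small_ok ws17 17000 h17 core_ok17 i (by rw [ws_len17]; omega)
  have h19 : ∀ i, i < 19000 → Holds (Asg vi R) (tb.get i) := fun i hi =>
    chkList_spec S near_ok small_ok ws18 18000 h18 core_ok18 i (by rw [ws_len18]; omega)
  have h20 : ∀ i, i < 20000 → Holds (Asg vi R) (tb.get i) := fun i hi =>
    chkList_spec S near_ok small_ok ws19 19000 h19 core_ok19 i (by rw [ws_len19]; omega)
  have h21 : ∀ i, i < 20716 → Holds (Asg vi R) (tb.get i) := fun i hi =>
    chkList_spec S near_ok small_ok ws20 20000 h20 core_ok20 i (by rw [ws_len20]; omega)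
  have h22 : ∀ i, i < 23216 → Holds (Asg vi R) (tb.get i) := fun i hi =>
    verify_spec hs0 20716 h21 hint_ok0 i (by rw [hs_len0]; omega)
  have h23 : ∀ i, i < 25716 → Holds (Asg vi R) (tb.get i) := fun i hi =>
    verify_spec hs1 23216 h22 hint_ok1 i (by rw [hs_len1]; omega)
  have h24 : ∀ i, i < 28216 → Holds (Asg vi R) (tb.get i) := fun i hi =>
    verify_spec hs2 25716 h23 hint_ok2 i (by rw [hs_len2]; omega)
  have h25 : ∀ i, i < 30716 → Holds (Asg vi R) (tb.get i) := fun i hi =>
    verify_spec hs3 28216 h24 hint_ok3 i (by rw [hs_len3]; omega)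
  have h26 : ∀ i, i < 33216 → Holds (Asg vi R) (tb.get i) := fun i hi =>
    verify_spec hs4 30716 h25 hint_ok4 i (by rw [hs_len4]; omega)
  have h27 : ∀ i, i < 35716 → Holds (Asg vi R) (tb.get i) := fun i hi =>
    verify_spec hs5 33216 h26 hint_ok5 i (by rw [hs_len5]; omega)
  have h28 : ∀ i, i < 38216 → Holds (Asg vi R) (tb.get i) := fun i hi =>
    verify_spec hs6 35716 h27 hint_ok6 i (by rw [hs_len6]; omega)
  have h29 : ∀ i, i < 40716 → Holds (Asg vi R) (tb.get i) := fun i hi =>
    verify_spec hs7 38216 h28 hint_ok7 i (by rw [hs_len7]; omega)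
  have h30 : ∀ i, i < 42215 → Holds (Asg vi R) (tb.get i) := fun i hi =>
    verify_spec hs8 40716 h29 hint_ok8 i (by rw [hs_len8]; omega)
  have h31 : ∀ i, i < 42511 → Holds (Asg vi R) (tb.get i) := fun i hi =>
    verify_spec hs9 42215 h30 hint_ok9 i (by rw [hs_len9]; omega)
  have h32 : ∀ i, i < 42805 → Holds (Asg vi R) (tb.get i) := fun i hi =>
    verify_spec hs10 42511 h31 hint_ok10 i (by rw [hs_len10]; omega)
  have h33 : ∀ i, i < 43224 → Holds (Asg vi R) (tb.get i) := fun i hi =>
    verify_spec hs11 42805 h32 hint_ok11 i (by rw [hs_len11]; omega)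
  have h34 : ∀ i, i < 43464 → Holds (Asg vi R) (tb.get i) := fun i hi =>
    verify_spec hs12 43224 h33 hint_ok12 i (by rw [hs_len12]; omega)
  have h35 : ∀ i, i < 43730 → Holds (Asg vi R) (tb.get i) := fun i hi =>
    verify_spec hs13 43464 h34 hint_ok13 i (by rw [hs_len13]; omega)
  have h36 : ∀ i, i < 44135 → Holds (Asg vi R) (tb.get i) := fun i hi =>
    verify_spec hs14 43730 h35 hint_ok14 i (by rw [hs_len14]; omega)
  have h37 : ∀ i, i < 46344 → Holds (Asg vi R) (tb.get i) := fun i hi =>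
    verify_spec hs15 44135 h36 hint_ok15 i (by rw [hs_len15]; omega)
  have h38 : ∀ i, i < 46696 → Holds (Asg vi R) (tb.get i) := fun i hi =>
    verify_spec hs16 46344 h37 hint_ok16 i (by rw [hs_len16]; omega)
  have h39 : ∀ i, i < 47051 → Holds (Asg vi R) (tb.get i) := fun i hi =>
    verify_spec hs17 46696 h38 hint_ok17 i (by rw [hs_len17]; omega)
  have h40 : ∀ i, i < 47348 → Holds (Asg vi R) (tb.get i) := fun i hi =>
    verify_spec hs18 47051 h39 hint_ok18 i (by rw [hs_len18]; omega)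
  have h41 : ∀ i, i < 47652 → Holds (Asg vi R) (tb.get i) := fun i hi =>
    verify_spec hs19 47348 h40 hint_ok19 i (by rw [hs_len19]; omega)
  have h42 : ∀ i, i < 47931 → Holds (Asg vi R) (tb.get i) := fun i hi =>
    verify_spec hs20 47652 h41 hint_ok20 i (by rw [hs_len20]; omega)
  have h43 : ∀ i, i < 48130 → Holds (Asg vi R) (tb.get i) := fun i hi =>
    verify_spec hs21 47931 h42 hint_ok21 i (by rw [hs_len21]; omega)
  have h44 : ∀ i, i < 48384 → Holds (Asg vi R) (tb.get i) := fun i hi =>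
    verify_spec hs22 48130 h43 hint_ok22 i (by rw [hs_len22]; omega)
  have h45 : ∀ i, i < 48600 → Holds (Asg vi R) (tb.get i) := fun i hi =>
    verify_spec hs23 48384 h44 hint_ok23 i (by rw [hs_len23]; omega)
  have h46 : ∀ i, i < 48786 → Holds (Asg vi R) (tb.get i) := fun i hi =>
    verify_spec hs24 48600 h45 hint_ok24 i (by rw [hs_len24]; omega)
  have h47 : ∀ i, i < 49324 → Holds (Asg vi R) (tb.get i) := fun i hi =>
    verify_spec hs25 48786 h46 hint_ok25 i (by rw [hs_len25]; omega)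
  have h48 : ∀ i, i < 49545 → Holds (Asg vi R) (tb.get i) := fun i hi =>
    verify_spec hs26 49324 h47 hint_ok26 i (by rw [hs_len26]; omega)
  have h49 : ∀ i, i < 49799 → Holds (Asg vi R) (tb.get i) := fun i hi =>
    verify_spec hs27 49545 h48 hint_ok27 i (by rw [hs_len27]; omega)
  have h50 : ∀ i, i < 50015 → Holds (Asg vi R) (tb.get i) := fun i hi =>
    verify_spec hs28 49799 h49 hint_ok28 i (by rw [hs_len28]; omega)
  have h51 : ∀ i, i < 50195 → Holds (Asg vi R) (tb.get i) := fun i hi =>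
    verify_spec hs29 50015 h50 hint_ok29 i (by rw [hs_len29]; omega)
  have h52 : ∀ i, i < 50396 → Holds (Asg vi R) (tb.get i) := fun i hi =>
    verify_spec hs30 50195 h51 hint_ok30 i (by rw [hs_len30]; omega)
  have h53 : ∀ i, i < 50562 → Holds (Asg vi R) (tb.get i) := fun i hi =>
    verify_spec hs31 50396 h52 hint_ok31 i (by rw [hs_len31]; omega)
  have h54 : ∀ i, i < 50729 → Holds (Asg vi R) (tb.get i) := fun i hi =>
    verify_spec hs32 50562 h53 hint_ok32 i (by rw [hs_len32]; omega)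
  have h55 : ∀ i, i < 51738 → Holds (Asg vi R) (tb.get i) := fun i hi =>
    verify_spec hs33 50729 h54 hint_ok33 i (by rw [hs_len33]; omega)
  have h56 : ∀ i, i < 51925 → Holds (Asg vi R) (tb.get i) := fun i hi =>
    verify_spec hs34 51738 h55 hint_ok34 i (by rw [hs_len34]; omega)
  have h57 : ∀ i, i < 52234 → Holds (Asg vi R) (tb.get i) := fun i hi =>
    verify_spec hs35 51925 h56 hint_ok35 i (by rw [hs_len35]; omega)
  have h58 : ∀ i, i < 52420 → Holds (Asg vi R) (tb.get i) := fun i hi =>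
    verify_spec hs36 52234 h57 hint_ok36 i (by rw [hs_len36]; omega)
  have hl := h58 52419 (by omega)
  rw [tb_last] at hl
  exact not_holds_zero hl

end Pool.Agent.Work.MP_b2b647_co.Check
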