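import Pool.Agent.Work.MP_b2b647_co.CheckDefs

/-! Generated data for the refutation (see Check.lean and SemCheck.lean). -/

set_option maxRecDepth 100000

namespace Pool.Agent.Work.MP_b2b647_co.Check

/-- The trie of the 176 words. -/
def vt : Tr := (.node (.node (.node (.node .nil (.node (.node .nil (.node (.node .nil (.node .nil (.node .nil .leaf))) (.node (.node .nil (.node .nil .leaf)) (.node (.node .nil .leaf) (.node .leaf .nil))))) (.node (.node (.node .nil (.node .nil (.node .nil .leaf))) (.node (.node .nil (.node .nil .leaf)) (.node (.node .nil .leaf) (.node .leaf .nil)))) (.node (.node .nil (.node (.node .nil .leaf) (.node .leaf .nil))) (.node (.node (.node .nil .leaf) (.node .leaf .nil)) .nil))))) (.node (.node (.node .nil (.node (.node .nil (.node .nil (.node .nil .leaf))) (.node (.node .nil (.node .nil .leaf)) (.node (.node .nil .leaf) (.node .leaf .nil))))) (.node (.node (.node .nil (.node .nil (.node .nil .leaf))) (.node (.node .nil (.node .nil .leaf)) (.node (.node .nil .leaf) (.node .leaf .nil)))) (.node (.node .nil (.node (.node .nil .leaf) (.node .leaf .nil))) (.node (.node (.node .nil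 .leaf) (.node .leaf .nil)) .nil)))) (.node (.node .nil (.node (.node .nil (.node (.node .nil .leaf) (.node .leaf .nil))) (.node (.node (.node .nil .leaf) (.node .leaf .nil)) .nil))) (.node (.node (.node .nil (.node (.node .nil .leaf) (.node .leaf .nil))) (.node (.node (.node .nil .leaf) (.node .leaf .nil)) .nil)) .nil)))) (.node (.node (.node (.node .nil (.node (.node .nil (.node .nil (.node .nil .leaf))) (.node (.node .nil (.node .nil .leaf)) (.node (.node .nil .leaf) (.node .leaf .nil))))) (.node (.node (.node .nil (.node .nil (.node .nil .leaf))) (.node (.node .nil (.node .nil .leaf)) (.node (.node .nil .leaf) (.node .leaf .nil)))) (.node (.node .nil (.node (.node .nil .leaf) (.node .leaf .nil))) (.node (.node (.node .nil .leaf) (.node .leaf .nil)) .nil)))) (.node (.node (.node (.node .nil (.node .nil (.node .nil .leaf))) (.node (.node .nil (.node .nil .leaf)) (.node (.node .nil .leaf) (.node .leaf .nil)))) (.node (.node (.node .nil (.node .nil .leaf)) (.node .nil (.node .leaf .nil))) (.node (.node (.node .nil .leaf) .nil) (.node (.node .leaf .nil) .nil)))) (.node (.node (.node (.node .nil (.node .nil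 .leaf)) (.node (.node .nil .leaf) .nil)) (.node (.node .nil (.node .leaf .nil)) (.node (.node .leaf .nil) .nil))) (.node (.node (.node (.node .nil .leaf) (.node .leaf .nil)) (.node (.node .leaf .nil) .nil)) (.node (.node (.node .leaf .nil) .nil) .nil))))) (.node (.node (.node (.node (.node .nil (.node .nil (.node .nil .leaf))) (.node (.node .nil (.node .nil .leaf)) (.node (.node .nil .leaf) (.node .leaf .nil)))) (.node (.node (.node .nil (.node .nil .leaf)) (.node (.node .nil .leaf) .nil)) (.node (.node .nil (.node .leaf .nil)) (.node (.node .leaf .nil) .nil)))) (.node (.node (.node (.node .nil (.node .nil .leaf)) (.node .nil (.node .leaf .nil))) (.node (.node (.node .nil .leaf) .nil) (.node (.node .leaf .nil) .nil))) (.node (.node (.node (.node .nil .leaf) (.node .leaf .nil)) (.node (.node .leaf .nil) .nil)) (.node (.node (.node .leaf .nil) .nil) .nil)))) (.node (.node (.node (.node .nil (.node (.node .nil .leaf) (.node .leaf .nil))) (.node (.node (.node .nil .leaf) (.node .leaf .nil)) .nil)) (.node (.node (.node (.node .nil .leaf) (.node .leaf .nil)) (.node (.node .leaf .nil) .nil)) (.node (.node (.node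 .leaf .nil) .nil) .nil))) (.node (.node (.node (.node (.node .nil .leaf) (.node .leaf .nil)) (.node (.node .leaf .nil) .nil)) (.node (.node (.node .leaf .nil) .nil) .nil)) .nil))))) (.node (.node (.node (.node (.node .nil (.node (.node .nil (.node .nil (.node .nil .leaf))) (.node (.node .nil (.node .nil .leaf)) (.node (.node .nil .leaf) (.node .leaf .nil))))) (.node (.node (.node .nil (.node .nil (.node .nil .leaf))) (.node (.node .nil (.node .nil .leaf)) (.node (.node .nil .leaf) (.node .leaf .nil)))) (.node (.node .nil (.node (.node .nil .leaf) (.node .leaf .nil))) (.node (.node (.node .nil .leaf) (.node .leaf .nil)) .nil)))) (.node (.node (.node (.node .nil (.node .nil (.node .nil .leaf))) (.node (.node .nil (.node .nil .leaf)) (.node (.node .nil .leaf) (.node .leaf .nil)))) (.node (.node (.node .nil (.node .nil .leaf)) (.node (.node .nil .leaf) .nil)) (.node (.node .nil (.node .leaf .nil)) (.node (.node .leaf .nil) .nil)))) (.node (.node (.node (.node .nil (.node .nil .leaf)) (.node .nil (.node .leaf .nil))) (.node (.node (.node .nil .leaf) .nil) (.node (.node .leaf .nil) .nil))) (.node (.node (.node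 (.node .nil .leaf) (.node .leaf .nil)) (.node (.node .leaf .nil) .nil)) (.node (.node (.node .leaf .nil) .nil) .nil))))) (.node (.node (.node (.node (.node .nil (.node .nil (.node .nil .leaf))) (.node (.node .nil (.node .nil .leaf)) (.node (.node .nil .leaf) (.node .leaf .nil)))) (.node (.node (.node .nil (.node .nil .leaf)) (.node .nil (.node .leaf .nil))) (.node (.node (.node .nil .leaf) .nil) (.node (.node .leaf .nil) .nil)))) (.node (.node (.node (.node .nil (.node .nil .leaf)) (.node (.node .nil .leaf) .nil)) (.node (.node .nil (.node .leaf .nil)) (.node (.node .leaf .nil) .nil))) (.node (.node (.node (.node .nil .leaf) (.node .leaf .nil)) (.node (.node .leaf .nil) .nil)) (.node (.node (.node .leaf .nil) .nil) .nil)))) (.node (.node (.node (.node .nil (.node (.node .nil .leaf) (.node .leaf .nil))) (.node (.node (.node .nil .leaf) (.node .leaf .nil)) .nil)) (.node (.node (.node (.node .nil .leaf) (.node .leaf .nil)) (.node (.node .leaf .nil) .nil)) (.node (.node (.node .leaf .nil) .nil) .nil))) (.node (.node (.node (.node (.node .nil .leaf) (.node .leaf .nil)) (.node (.node .leaf .nil) .nil)) (.node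 (.node (.node .leaf .nil) .nil) .nil)) .nil)))) (.node (.node (.node (.node .nil (.node (.node .nil (.node (.node .nil .leaf) (.node .leaf .nil))) (.node (.node (.node .nil .leaf) (.node .leaf .nil)) .nil))) (.node (.node (.node .nil (.node (.node .nil .leaf) (.node .leaf .nil))) (.node (.node (.node .nil .leaf) (.node .leaf .nil)) .nil)) .nil)) (.node (.node (.node (.node .nil (.node (.node .nil .leaf) (.node .leaf .nil))) (.node (.node (.node .nil .leaf) (.node .leaf .nil)) .nil)) (.node (.node (.node (.node .nil .leaf) (.node .leaf .nil)) (.node (.node .leaf .nil) .nil)) (.node (.node (.node .leaf .nil) .nil) .nil))) (.node (.node (.node (.node (.node .nil .leaf) (.node .leaf .nil)) (.node (.node .leaf .nil) .nil)) (.node (.node (.node .leaf .nil) .nil) .nil)) .nil))) (.node (.node (.node (.node (.node .nil (.node (.node .nil .leaf) (.node .leaf .nil))) (.node (.node (.node .nil .leaf) (.node .leaf .nil)) .nil)) (.node (.node (.node (.node .nil .leaf) (.node .leaf .nil)) (.node (.node .leaf .nil) .nil)) (.node (.node (.node .leaf .nil) .nil) .nil))) (.node (.node (.node (.node (.node .nil .leaf) (.node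 .leaf .nil)) (.node (.node .leaf .nil) .nil)) (.node (.node (.node .leaf .nil) .nil) .nil)) .nil)) .nil))))

theorem near_ok : nearCheck vt = true := by decide +kernel

theorem small_ok : smallCheck vt = true := by decide +kernel

end Pool.Agent.Work.MP_b2b647_co.Check
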