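import Pool.Agent.Work.MP_b2b647_co.Data.Table0
import Pool.Agent.Work.MP_b2b647_co.Data.Table1
import Pool.Agent.Work.MP_b2b647_co.Data.Table2
import Pool.Agent.Work.MP_b2b647_co.Data.Table3

namespace Pool.Agent.Work.MP_b2b647_co.Check

/-- The table tb. -/
def tb : DB := (.node (.node (.node (.node (.node (.node tb0 tb32) (.node tb16 tb48)) (.node (.node tb8 tb40) (.node tb24 tb56))) (.node (.node (.node tb4 tb36) (.node tb20 tb52)) (.node (.node tb12 tb44) (.node tb28 tb60)))) (.node (.node (.node (.node tb2 tb34) (.node tb18 tb50)) (.node (.node tb10 tb42) (.node tb26 tb58))) (.node (.node (.node tb6 tb38) (.node tb22 tb54)) (.node (.node tb14 tb46) (.node tb30 tb62))))) (.node (.node (.node (.node (.node tb1 tb33) (.node tb17 tb49)) (.node (.node tb9 tb41) (.node tb25 tb57))) (.node (.node (.node tb5 tb37) (.node tb21 tb53)) (.node (.node tb13 tb45) (.node tb29 tb61)))) (.node (.node (.node (.node tb3 tb35) (.node tb19 tb51)) (.node (.node tb11 tb43) (.node tb27 tb59))) (.node (.node (.node tb7 tb39) (.node tb23 tb55))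 (.node (.node tb15 tb47) (.node tb31 tb63))))))

end Pool.Agent.Work.MP_b2b647_co.Check
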