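import Pool.Agent.Work.MP_b2b647_co.Data.Vars0

namespace Pool.Agent.Work.MP_b2b647_co.Check

/-- The table vi. -/
def vi : DB := (.node (.node (.node (.node vi0 vi8) (.node vi4 vi12)) (.node (.node vi2 vi10) (.node vi6 vi14))) (.node (.node (.node vi1 vi9) (.node vi5 vi13)) (.node (.node vi3 vi11) (.node vi7 vi15))))

end Pool.Agent.Work.MP_b2b647_co.Check
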